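import Pool.Agent.Lib_MP_1df64d_an.Final

/-!
# MP_1df64d_an: weak convergence to zero is at most logarithmically fast

Every nonzero finite-energy weak solution of `u_tt - u_xx + u^3 = 0` on `(0,1)` with zero boundary
values (arbitrary energy) satisfies, for all large `t`,
`∫_t^{t+2} ∫_0^1 u^4 dx ds ≥ c / (log t)^2` with an absolute constant `c > 0`.

Proof: with step 2 differences in time (2 is the period of the linear flow) the equation has exact
difference identities; for every order `n` there is an adiabatic invariant `KK n`, a combination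
of the space-time fourth power integral and of antisymmetric forms of the differences, whose
derivative is `∫∫ (c^3 - A) c'`, where `c` and `A` are the polynomials of degree `n` that
interpolate `U(t + 2r)` and `U(t + 2r)^3`. The interpolation error is `3^{-n}` for
`n ~ 1/N^2`, `N^4` the fourth power integral, so `N` is almost constant for a time `exp(c/N^2)`.
-/

open MeasureTheory Filter Topology

namespace Pool.Agent.Results.MP_1df64d_an.LogarithmicLowerBound

/-- There is an absolute `c > 0` such that for every finite-energy weak solution `u`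
(`ux`, `v` its space and time derivatives, the conditions of the frozen statement) that is not
identically zero, `∫_t^{t+2} ∫_0^1 u^4 ≥ c / (log t)^2` for all large `t`. -/
theorem result :
    ∃ c : ℝ, 0 < c ∧ ∀ u ux v : ℝ → ℝ → ℝ,
      Measurable (Function.uncurry ux) → Measurable (Function.uncurry v) →
      (∀ t, MemLp (ux t) 2 (volume.restrict (Set.Ioc (0:ℝ) 1))) →
      (∀ t, MemLp (v t) 2 (volume.restrict (Set.Ioc (0:ℝ) 1))) →
      (∀ t₀ : ℝ, Tendsto
        (fun t => ∫ x in (0:ℝ)..1, ((ux t x - ux t₀ x) ^ 2 + (v t x - v t₀ x) ^ 2))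
        (𝓝 t₀) (𝓝 0)) →
      (∀ t x : ℝ, x ∈ Set.Icc (0:ℝ) 1 → u t x = ∫ y in (0:ℝ)..x, ux t y) →
      (∀ t : ℝ, u t 1 = 0) →
      (∀ φ : ℝ × ℝ → ℝ, ContDiff ℝ ((⊤ : ℕ∞) : WithTop ℕ∞) φ → HasCompactSupport φ →
        tsupport φ ⊆ (Set.univ : Set ℝ) ×ˢ Set.Ioo (0:ℝ) 1 →
        (∫ t, ∫ x in (0:ℝ)..1,
            (u t x * fderiv ℝ φ (t, x) (1, 0) + v t x * φ (t, x))) = 0 ∧
        (∫ t, ∫ x in (0:ℝ)..1,
            (-(v t x * fderiv ℝ φ (t, x) (1, 0)) + ux t x * fderiv ℝ φ (t, x) (0, 1)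
              + u t x ^ 3 * φ (t, x))) = 0) →
      (∃ t x : ℝ, x ∈ Set.Ioo (0:ℝ) 1 ∧ u t x ≠ 0) →
      ∀ᶠ t in atTop, c / Real.log t ^ 2 ≤ ∫ s in t..(t + 2), ∫ x in (0:ℝ)..1, u s x ^ 4 := by
  obtain ⟨c, hc, H⟩ := Pool.MP_1df64d_an.main_lower
  refine ⟨c, hc, fun u ux v h1 h2 h3 h4 h5 h6 h7 h8 hne => ?_⟩
  exact H u ux v ⟨h1, h2, h3, h4, h5, h6, h7, h8⟩ hne

end Pool.Agent.Results.MP_1df64d_an.LogarithmicLowerBound
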